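import Pool.Agent.V7H1.LV.Mul

set_option autoImplicit false

/-! # The strong monodromy conjecture over multiples of free hyperplane arrangements

Let `H_s`, `s ∈ S`, be the hyperplanes `α s = 0` of `ℂ ^ ι`, and `L_s = H_s ⊗ ℂ ^ m ⊆ ℂ ^ ι ⊗ ℂ ^ m`,
a linear subspace of codimension `m`, defined by the linear forms `copies m (α s) k`, `k < m`. For
`t ∈ T` let `F_t = ∑_j y_{t,j} M_{t,j}(x)`, where the `M_{t,j}` are the products of these linear
forms, `e t s` of them from the family of index `s` (`arrGen`; they generate `∏ s, I(L_s) ^ e t s`),
and the `y_{t,j}` are further variables. Let `f = ∏ t, F_t ^ a t` (`powProd`).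

The subspaces `X ⊗ ℂ ^ m` (`power`), where `X` are the irreducible flats of the arrangement of the
`H_s` which occur in `f`, are a building set (De Concini and Procesi). Let `Y` be the wonderful
model, obtained from the affine space by blowing up these subspaces, in the order of the
dimension. It is smooth, the components `E_X` cross normally, `ν_X = m codim X`, and the ideal of
`L_s` becomes that of the divisor `∑ E_X` over the `X ⊆ H_s`. So locally on `Y` the form `F_t` is one
of the `M_{t,j}` times `y_{t,j} + ∑_{i ≠ j} h_i y_{t,i}`, and `Y` times the space of the `y` is an
embedded resolution of `f`, with the components `E_X`, of multiplicity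
`N_X = ∑ t, a t ∑ e t s`, the second sum over the `s` with `X ⊆ H_s`, and, for `a t > 0`, the strict
transform of `F_t = 0`, with `N = a t`, `ν = 1` (`mulA`, `nuA`). So the global topological zeta function
of `f` is `topZ ν N χ = ∑_J χ J ∏_{i ∈ J} 1 / (N_i s + ν_i)`, `χ J` the Euler characteristic of the
stratum of `J`.

We prove the strong monodromy conjecture for `f` if, for every irreducible flat `X` (which belongs
to a stratum with `χ J ≠ 0`), the linear relations between the `α s` with `X ⊆ H_s` are generated by
those with at most `m + 1` terms (`ShortRelations`).

Examples. (a) Let `m ≥ 2`, and let the arrangement of the `H_s` be free. Then its localizations are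
free, and, by a theorem of Yuzvinsky (1993), free arrangements are formal: the relations are
generated by those with three terms. So the theorem applies to all free arrangements and all
`m ≥ 2`, for instance to all arrangements of reflecting hyperplanes of finite complex reflection
groups (Terao). Before only supersolvable arrangements, with `m ≥ 2`, and `m ≥ codim X` for all `X` were
known (start library); for example the arrangements of type `D_4` or `E_8` are free but not
supersolvable. (b) Let the `H_s` be the hyperplanes `x_i = x_j`, `{i, j}` an edge of a graph `Γ`, so
that `L_s` is the diagonal `x_i = x_j` of `(ℂ ^ m) ^ n`. The relations are generated by those of the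
induced cycles, so the theorem applies if all induced cycles of `Γ` have at most `m + 1` vertices; for
instance to all complete bipartite (and all complete multipartite) graphs, if `m ≥ 3`.

The proof. For a general linear map `u` from the dual space to `ℂ ^ m`, which is injective on the
span of any `m` of the `α s`, we consider the maps `v` with `v(α s) = λ_s u(α s)`, `X ⊆ H_s`. If
`∑ q_s α_s = 0` is a relation with at most `m + 1` terms then `∑ q_s λ_s α_s = 0`; so this holds for all
relations, and there is an endomorphism with the eigenvectors `α s` and the eigenvalues `λ_s`. As
`X` is irreducible, there is only one eigenvalue. This says that `X ⊗ ℂ ^ m` is a Rees flat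
(`IsReesFlat`) of the `L_s`: the quotients of the generators of the ideals are local coordinates on
`E_X` at the point of `u`. The functional equation of `f` gives one of the product of the ideals, with
the same `b` (Mustață), and a residue computation in this chart gives the root `-ν_X / N_X` of `b`. -/

namespace Pool.Agent.Results.MP_504089_ag.HyperplaneMultiplesH1

open Pool.Agent.W574.HS Pool.Agent.H628R4.TP Pool.Agent.TH192.DT Pool.Agent.TH187.SA
  Pool.Agent.V7H1.LV

/-- **The strong monodromy conjecture for `f = ∏ t, F_t ^ a t`.** Let `L_s = H_s ⊗ ℂ ^ m`, `m ≥ 1`, and
let the `X i` be linear subspaces (the irreducible flats). Suppose that the `X i` which belong to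
strata with `χ J ≠ 0` are irreducible flats such that the linear relations between the forms `α s`
which occur in `f` and vanish on `X i` are generated by those with at most `m + 1` terms. Then every
pole `s₀` of the topological zeta function of `f`, computed on the resolution described above (with
arbitrary integers `χ` in the place of the Euler characteristics of the strata), is a root of every
polynomial `b` with `b(s) f ^ s = P(s) f ^ (s + 1)`, in particular of the Bernstein-Sato polynomial. -/
theorem result {ι S T I : Type} [Fintype ι] [DecidableEq ι] [Fintype S] [DecidableEq S]
    [Fintype T] [DecidableEq T] [Fintype I] (m : ℕ) (hm : 0 < m) (α : S → ι → ℂ)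
    (h0 : ∀ s, α s ≠ 0) (e : T → S → ℕ) (a : T → ℕ) (X : I → Submodule ℂ (ι → ℂ))
    (hX : ∀ i, X i ≠ ⊤) (χ : Finset (I ⊕ T) → ℤ)
    (hE : ∀ J, χ J ≠ 0 → ∀ i, Sum.inl i ∈ J → IsIrreducibleFlat α (Occurs e a) (X i) ∧
      ShortRelations m α (Occurs e a) (X i)) (s₀ : ℂ)
    (hs : (topZ (nuA (fun i => power m (X i)) T)
      (mulA (fun s => zeros (copies m (α s))) e a fun i => power m (X i)) χ).denom.eval s₀ = 0)
    (b : Polynomial ℂ)
    (hb : IsBFunction (powProd a fun t => arrGen (fun s => copies m (α s)) (e t)) b) :
    b.eval s₀ = 0 :=
  top_mul m hm α h0 e a X hX χ hE s₀ hs b hb

end Pool.Agent.Results.MP_504089_ag.HyperplaneMultiplesH1
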