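import Pool.Agent.V7H1.LV.FinInit

set_option autoImplicit false

/-! # The strong monodromy conjecture: unramified initial forms and clean arrangements

For `t ∈ T` let `g t j`, `j ∈ κ t`, be polynomials in the variables `x`, let `I_t` be the ideal which
they generate, and let `F_t = ∑_j y_{t,j} g_{t,j}(x)`, with further variables `y_{t,j}`, and
`f = ∏ t, F_t ^ a t` (`powProd`), `a t > 0`. A log resolution of the product of the `I_t`, times the
space of the `y`, is an embedded resolution of `f` (locally `F_t` is a monomial times
`y_{t,j} + ∑_{i ≠ j} h_i y_{t,i}`). Its components are the components `E_i` of the log resolution, with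
`ν_i` and `N_i = ∑ t, a t * M_i t`, `M_i t` the order of `I_t` along `E_i`, and the strict transforms of
`F_t = 0`, with `ν = 1`, `N = a t`. The topological zeta function of `f` is
`topZ ν N χ = ∑_J χ J ∏_{i ∈ J} 1 / (N_i s + ν_i)`, `χ J` the Euler characteristic of the stratum of `J`.
If one replaces the resolution by a toroidal modification, the coefficients are certain other
integers; so `χ` is arbitrary here. We give two criteria (`DetectedW`) for `b_f(-ν_E / N_E) = 0`, and get
the strong monodromy conjecture for `f` if they hold for the components which belong to strata with
`χ J ≠ 0`.

**First criterion: initial forms** (`InitialData`). Let `h s` be local coordinates at `p`, `w s ≥ 0`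
weights, and let `E` be the exceptional divisor of the weighted blow-up of the centre `h s = 0`,
`w s > 0`; so `ν = ∑ w s`. Let `M t` be the order of `I_t`, and `G t j` the initial form of `g t j`, of
degree `M t`. For `w s > 0` the point `p` has the coordinates `0`; the others are the parameters of the
centre. The `G t j`, one `t` at a time, define rational maps on the fibre of `E`, a weighted
projective space. The condition is that there is a point `c` at which they are defined and which is
an isolated point, in the infinitesimal sense, of the fibre of all these maps together (they are
unramified at `c`). Then `E` is a Rees divisor of the product of the ideals, and `b_f(-ν_E / N_E) = 0`.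

Examples. (a) Let the ideals `I_t` be locally monomial, that is generated by monomials in suitable local
coordinates at every point. By a toroidal modification one needs only the components `E` which belong
to the facets of the Newton polyhedra of the product of the ideals. The initial forms are monomials,
and the criterion holds for all facets. (b) Let `C_1, …, C_r` be smooth curves in `ℂ ^ n`, `n ≥ 3`,
with arbitrary contacts, and `I_t = ∏ s, I(C_s) ^ e t s`. The components are those of the curves, and for
each point `p` and `k ≥ 1` those of the sets `S` of curves through `p` which have pairwise the contact
`≥ k`, with equality for some pair (`S` maximal). Here the weights are `(1, k, …, k)`, so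
`ν = 1 + (n - 1) k`, and `M t = ∑ s, e t s min (k, contact of C_s with S)`. The initial forms are
products of the `h_i - c_{s,i} h_0 ^ k`, `s ∈ S`, and powers of `h_0`. Two different points
`c_s ≠ c_{s'}` suffice: a point outside of the line through them is determined by its directions from
`c_s` and `c_{s'}`. (c) Let the `g t j` be weighted homogeneous of the degree `M t`, with the only common
zero `0` for every `t`, perhaps plus terms of higher weight. One weighted blow-up resolves `f`, and the
criterion holds, as finite maps are generically unramified. (d) Forms `g t j` of the degree `M t > 0`,
`n` of them, for one `t`, with nonzero Jacobian, `E` the blow-up of the origin (`cone_init`).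

**Second criterion: the partition inequality** (`LocalData.Ineq`). Let `Z_1, …, Z_r` be smooth closed
subvarieties of `ℂ ^ n` all of whose intersections are clean, and `I_t = ∏ s, I(Z_s) ^ e t s`. Let `𝒢` be a
building set of this arrangement (De Concini and Procesi; Li Li). The blow-up of the members of `𝒢` is
a log resolution, with components `E_G`, `ν_G = codim G`, `M_G t = ∑ e t s` over the `s` with
`G ⊆ Z_s`. The partition inequality holds for `G` if, for every partition of the set of the
`Z_s ⊇ G` into blocks `P`, `codim G - 1 ≤ ∑_P (codim (⋂_{s ∈ P} Z_s) - 1)`, with the codimensions at a
general point of `G`. For linear subspaces it holds if and only if `E_G` is a Rees divisor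
(`rees_iff` in `Pool.Agent.V7H1.LV.Crit`). Examples. (e) Two smooth varieties which meet cleanly.
(f) Linear subspaces `L_s` of `ℂ ^ n` in general position with `∑ s, (codim L_s - 1) ≥ n - 1`
(`generic_iff` in `Pool.Agent.V7H1.LV.Lin`). (g) Any number of smooth subvarieties `Z_s` of `ℂ ^ n`,
`n ≥ 3`, with `2 dim Z_s ≤ n`, whose tangent spaces at common points have pairwise the intersection `0`,
for instance pairwise transversal smooth surfaces in `ℂ ^ 4`.

**The proof.** A functional equation of `f` gives one of the product of the ideals, with the same `b`
(Mustață). For the first criterion we construct a formal chart of the weighted blow-up at the point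
`c` over `p` (`exists_wblow`); quotients of the pull-backs of linear combinations of the `g t j` are
coordinates on `E` there (`exists_wchart`), and a residue computation gives the root. If the
partition inequality holds, then, by the generic hyperplane theorem of Lovász (1977), here proved
by a perturbation argument (`exists_section`), there is a normal direction at `p` for which the
same is true.

The resolutions, and the formula for the topological zeta function in terms of them, are not
formalized: `topZ` is defined by the numerical data. -/

namespace Pool.Agent.Results.MP_504089_ag.InitialFormsH1

open Pool.Agent.W574.HS Pool.Agent.H628R4.TP Pool.Agent.TH192.DT Pool.Agent.Y231.RF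
  Pool.Agent.V7H1.LV

/-- **The strong monodromy conjecture for `f = ∏ t, F_t ^ a t`.** Let `ν`, `M` be the numerical data
of the components `E_i` of a resolution as above. Suppose that the components which belong to
strata with `χ J ≠ 0` are `DetectedW`: at some point `p` there are unramified initial forms
(`InitialData`), or the ideals are near `p` products of ideals of smooth varieties (`LocalData`) for
which the partition inequality holds. Then every pole of the topological zeta function is a root of
every `b` with `b(s) f ^ s = P(s) f ^ (s + 1)`, in particular of the Bernstein-Sato polynomial
of `f`. -/
theorem result {σ T I : Type} [Fintype σ] [DecidableEq σ] [Fintype T] [DecidableEq T] [Fintype I]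
    {κ : T → Type} [∀ t, Fintype (κ t)] [∀ t, DecidableEq (κ t)]
    (g : (t : T) → κ t → MvPolynomial σ ℂ) (hg : ∀ t, ∃ j, g t j ≠ 0) (a : T → ℕ)
    (ha : ∀ t, 0 < a t) (ν : I → ℕ) (hν : ∀ i, 0 < ν i) (M : I → T → ℕ)
    (χ : Finset (I ⊕ T) → ℤ)
    (hE : ∀ J, χ J ≠ 0 → ∀ i, Sum.inl i ∈ J → DetectedW g (ν i) (M i)) (s₀ : ℂ)
    (hs : (topZ (Sum.elim ν fun _ => 1) (mulR a M) χ).denom.eval s₀ = 0)
    (b : Polynomial ℂ) (hb : IsBFunction (powProd a g) b) : b.eval s₀ = 0 :=
  topW g hg a ha ν hν M χ hE s₀ hs b hb

end Pool.Agent.Results.MP_504089_ag.InitialFormsH1
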