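import Pool.Agent.V7H32.GL.Fin
import Pool.Agent.V7H32.GL.Hyp
import Pool.Agent.V7H32.GL.Iso
import Pool.Agent.V7H32.GL.TriFin

set_option autoImplicit false

/-! # The strong monodromy conjecture for topological zeta functions: hyperplane sections of Segre
varieties, trilinear forms, isolated singularities, and a local-global principle

`χ : 𝓜 → ℂ` is a ring homomorphism with `χ(𝕃) = 1`, for instance the Euler characteristic, where
`𝓜 = K₀(Var_ℂ)[𝕃⁻¹]`.

## Definitions (in `Pool/Agent/V7H32/GL/Defs.lean`)

* `zt f W` (start library) is the motivic zeta function `∑_N [X_N] 𝕃 ^ (-n N) T ^ N` of the polynomial `f` in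
  `n` variables with origins in the constructible set `W`: `X_N` is the set of the `N`-jets `ψ` of the
  affine space with `ψ(0) ∈ W` and `ord f(ψ) = N`.
* `IsTopZ χ Z R`: the series `Z` is a polynomial `Q` with coefficients in `𝓜` in the
  `F_(N, ν) = (𝕃 - 1) 𝕃 ^ (-ν) T ^ N / (1 - 𝕃 ^ (-ν) T ^ N)`, `N ≥ 1`, `ν ∈ ℤ`, and
  `R = (χ Q)(1 / (N s + ν))`. `IsTopU χ Z R` is the same with `ν ≥ 1` (this is `IsTop` of the start library).
  By the formula of Denef and Loeser on an embedded resolution, `IsTopU χ (zt f W) R` holds for the
  usual topological zeta function `R` of `f` with origins in `W`.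
* `IsBFunction f b`: `b(s) f ^ s = P(s) f ^ (s + 1)` for an operator `P` in the Weyl algebra `[s]`;
  `IsBOn g f b`: the same on the open set `g ≠ 0`, so `P` may have powers of `g` in the denominators.
* `Cj χ o f W b`, the conjecture for `f`, the origins `W` and `b`: `zt f W` has a topological
  specialisation `R`, and for all rational numbers `s < 0`: if `b(s) ≠ 0` then `R` is regular at `s`
  (for `o = false`, the strong monodromy conjecture); `b R` is regular at `s` (for `o = true`, the
  conjecture with orders of poles and multiplicities of roots). By part (1) this is the conjecture for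
  the usual topological zeta function, whose poles are negative rational numbers.
* `Sg f`: the singular points of `f = 0` in `ℂ ^ n`; `SgOn f g`: those with `g ≠ 0`.
* `GlobC χ o k`: the global conjecture (all non-constant polynomials `f` in any number of variables with
  at most `k` singular points, all `b` with `IsBFunction f b`, `W` the affine space).
* `OpenC χ o k`: the conjecture on open sets (all `f` and `g` such that there are at most `k` singular
  points with `g ≠ 0`, all `b` with `IsBOn g f b`, all constructible sets `W` in the open set `g ≠ 0`).
* `PointC χ o k`: the local conjecture (all `f`, all points `a` with `f(a) = 0`, all `g` with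
  `g(a) ≠ 0` and at most `k` singular points with `g ≠ 0`, all `b` with `IsBOn g f b`, `W = {a}`).
* `FinC χ o`: the conjecture for finitely many singular points (as `OpenC`, for all `f` and `g` with finitely
  many singular points with `g ≠ 0`, instead of at most `k`).
* `DenefLoeser χ`: for every non-constant `f` there are a finite constructible partition `S_j` of the
  affine space and `R_j` with `IsTopZ χ (zt f W) (∑_j χ(W ∩ S_j) R_j)` for all constructible `W`. This is
  a known theorem for the Euler characteristic; it is only used in the last statement of part (1).
* `yug f g = f + y (u g - 1)`.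
* `HF f`: `f = ∑_i c_i x_i + ∑_(e ∈ H) ∏_(i ∈ e) x_i` is the sum of a linear form and of the polynomial of a
  hypergraph `H` whose edges have two or three elements; every variable occurs in at most three
  monomials of `f`; and there is a set `T` of variables such that every edge has at most one element in
  `T` and at most two elements outside of `T`.
* `Col3 f`: the variables can be divided into three groups such that all monomials of `f` have degree at
  most one in each group. So `f = 0` is a hyperplane section of the Segre variety `ℙ ^ p × ℙ ^ q × ℙ ^ r`, in
  the affine chart `x_0 = y_0 = z_0 = 1`. `SegreC χ o k` is the global conjecture for these polynomials, with at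
  most `k` singular points. (For two groups, `f` is a quadratic polynomial.)
* `Tri col f`: `f` is a trilinear form `∑ c_(i j k) x_i y_j z_k` in three groups of variables (the group of the
  variable with the index `i` is `col i`). `TriOpenC χ o` is the conjecture for all trilinear forms on the open
  set `x_0 y_0 z_0 ≠ 0`, with the origins in `x_0 = y_0 = z_0 = 1`. `TriPointC χ o` is the local conjecture for
  all trilinear forms, at the points with `x_0 = y_0 = z_0 = 1`. (By linear changes of the variables `x`, `y`,
  `z` and by scaling, these are all points with `x ≠ 0`, `y ≠ 0`, `z ≠ 0`.)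

For `k = ⊤` there is no condition on the singular points. For `k = 1` the local conjecture is the
conjecture for isolated singularities; by parts (6), (7) and (8) it is equivalent to the global conjecture
for hypergraph polynomials with at most one singular point, and for hyperplane sections of Segre
varieties with at most one singular point in the affine chart.

## Idea

Let `G = f + y (u g - 1)`. At the origins with `g ≠ 0` the substitution `z = u g - 1` identifies the jets of
`G` with those of `f + y z`, and at the origins with `g = 0` the hypersurface is smooth; so `Z_G` is an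
explicit function of the zeta function of `f` on the open set `g ≠ 0`. A functional equation
`(s + 1) c(s)` of `f` on this open set gives the functional equation `(s + 1) c(s + 1)` of `G`: the
substitution `z = u g - 1` transports the `D`-module equation of `f + y z` up to a power of `g`, and `g` is
invertible modulo `∂G/∂y = u g - 1`. So the global conjecture for `G` contains the conjecture for the open
set. The class of a constructible set in the open set is an integral combination of the classes of
principal open sets. Hypergraph polynomials are obtained by steps `f ↦ f + (t + v) (w - u)` (the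
automorphism `t ↦ t + v`, `w ↦ w - u` of `f + t w`), first to reach cubic polynomials (start library),
then to distribute the occurrences of the variables, and then to normalise the coefficients. At the
smooth points the zeta function is computed by induction on the order of the jets, so for finitely many
singular points the local conjecture gives the global one without a resolution of singularities.

Trilinear forms: the steps can replace one occurrence of a variable by a new variable of any group, so
one reaches a polynomial `F` of degree at most one in each of three groups of variables. Its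
homogenisation `Φ = x_0 y_0 z_0 F(x / x_0, y / y_0, z / z_0)` is a trilinear form. The substitution
`x_i ↦ x_0 x_i` and so on turns `Φ` into `x_0 y_0 z_0 F`, and it turns operators in the variables of `F` into
operators with denominators `x_0 y_0 z_0` which commute with `x_0`, `y_0`, `z_0`; so the zeta functions of `F`
and `Φ` (with `x_0 = y_0 = z_0 = 1` at the origins) are equal, and a functional equation of `F` gives the
same functional equation of `Φ` on `x_0 y_0 z_0 ≠ 0`. -/

namespace Pool.Agent.Results.MP_504089_ag.LocalGlobalHypergraphH32

open MvPolynomial Pool.Agent.W428.MOT Pool.Agent.N101.CB Pool.Agent.V7H32.GL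
open Pool.Agent.H628R4.TP (IsBFunction)

/-- The global conjecture for the hypergraph polynomials with at most `k` singular points. -/
def HyperC (χ : MK ℂ →+* ℂ) (o : Bool) (k : ℕ∞) : Prop :=
  ∀ (n : ℕ) (f : MvPolynomial (Fin n) ℂ), HF f → f.totalDegree ≠ 0 → (Sg f).encard ≤ k →
    ∀ b : Polynomial ℂ, IsBFunction f b → Cj χ o f Set.univ b

/-- **The usual conjecture.** Suppose that `χ = ε ∘ E` with a homomorphism `E` to a domain and `E(𝕃) ≠ 1`
(the Hodge-Deligne polynomial, for the Euler characteristic). Then `R` is determined by `Z` in
`IsTopZ χ Z R`. If `R` is a topological zeta function of `f` with origins in `W` in the usual sense, then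
`Cj χ false f W b` means that all poles of `R` are roots of `b`, and `Cj χ true f W b` means that `b R` is
regular everywhere. If the theorem of Denef and Loeser holds, then the local conjecture implies the
global conjecture. -/
def Usual (χ : MK ℂ →+* ℂ) (o : Bool) (k : ℕ∞) : Prop :=
  ∀ (A : Type) [CommRing A] [IsDomain A] (E : MK ℂ →+* A) (ε : A →+* ℂ), χ = ε.comp E →
    E ((Lu ℂ : (MK ℂ)ˣ) : MK ℂ) ≠ 1 →
    (∀ (Z : PowerSeries (MK ℂ)) (R R' : RatFunc ℂ), IsTopZ χ Z R → IsTopZ χ Z R' → R = R') ∧
    (∀ (n : ℕ) (f : MvPolynomial (Fin n) ℂ) (W : Set (Pt ℂ (Fin n))) (b : Polynomial ℂ)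
      (R : RatFunc ℂ), IsTopU χ (zt f W) R →
      (Cj χ false f W b ↔ ∀ s : ℂ, ¬ Reg R s → b.eval s = 0) ∧
      (Cj χ true f W b ↔ ∀ s : ℂ, Reg (algebraMap (Polynomial ℂ) (RatFunc ℂ) b * R) s)) ∧
    (DenefLoeser χ → PointC χ o k → GlobC χ o k)

/-- **The polynomial `G = f + y (u g - 1)`.** The hypersurface `G = 0` has at most as many singular points
as `f = 0` in the open set `g ≠ 0`; the zeta function of `G` is an explicit function (`ZG`) of the one of `f` in
this open set; a functional equation `(s + 1) c(s)` of `f` on this open set gives the functional equation
`(s + 1) c(s + 1)` of `G`; the conjecture for `G` implies the conjecture for `f` on this open set. -/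
def OpenToGlobal (χ : MK ℂ →+* ℂ) (o : Bool) : Prop :=
  ∀ (n : ℕ) (f g : MvPolynomial (Fin n) ℂ), f.totalDegree ≠ 0 →
    (Sg (yug f g)).encard ≤ (SgOn f g).encard ∧
    zt (yug f g) Set.univ = ZG (Lu ℂ) (clM {z : Pt ℂ (Fin n) | aeval z g ≠ 0})
      (clM {z : Pt ℂ (Fin n) | aeval z g ≠ 0}ᶜ) (zt f {z | aeval z g ≠ 0}) ∧
    (∀ c : Polynomial ℂ, IsBOn g f ((Polynomial.X + 1) * c) →
      IsBFunction (yug f g) ((Polynomial.X + 1) * c.comp (Polynomial.X + 1))) ∧
    ((∀ b : Polynomial ℂ, IsBFunction (yug f g) b → Cj χ o (yug f g) Set.univ b) →
      ∀ b : Polynomial ℂ, IsBOn g f b → Cj χ o f {z | aeval z g ≠ 0} b)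

/-- **Reduction to hypergraph polynomials.** For every non-constant `f` in `n` variables there is a
hypergraph polynomial `F` in `n + 2 κ` variables, with at most as many singular points, such that a
functional equation of `f` with `(s + 1) c(s)` gives one of `F` with `(s + 1) c(s + κ)`, and the conjecture for
`F` implies the conjecture for `f`. -/
def ToHypergraph (χ : MK ℂ →+* ℂ) (o : Bool) : Prop :=
  ∀ (n : ℕ) (f : MvPolynomial (Fin n) ℂ), f.totalDegree ≠ 0 →
    ∃ (κ m : ℕ) (F : MvPolynomial (Fin m) ℂ), m = n + 2 * κ ∧ HF F ∧ F.totalDegree ≠ 0 ∧
      (Sg F).encard ≤ (Sg f).encard ∧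
      (∀ c : Polynomial ℂ, IsBFunction f ((Polynomial.X + 1) * c) →
        IsBFunction F ((Polynomial.X + 1) * c.comp (Polynomial.X + Polynomial.C (κ : ℂ)))) ∧
      ((∀ b : Polynomial ℂ, IsBFunction F b → Cj χ o F Set.univ b) →
        ∀ b : Polynomial ℂ, IsBFunction f b → Cj χ o f Set.univ b)

/-- **The strong monodromy conjecture: global, local, and for trilinear forms.**

(1) The meaning of the definitions, for the usual topological zeta functions; the local conjecture
implies the global one by the theorem of Denef and Loeser (`Usual`).
(2) The properties of `G = f + y (u g - 1)` (`OpenToGlobal`).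
(3) The global conjecture is equivalent to the conjecture on all open sets and for all constructible
sets of origins, for every bound `k` for the number of singular points.
(4) The global conjecture implies the local conjecture at all points.
(5) The reduction of `f` to a hypergraph polynomial `F` in `n + 2 κ` variables (`ToHypergraph`).
(6) The global conjecture is equivalent to the global conjecture for hypergraph polynomials.
(7) Isolated singularities (`k = 1`): the global conjecture is equivalent to the local conjecture, and to
the conjecture for finitely many singular points.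
(8) Segre varieties: the global conjecture is equivalent to its case of hyperplane sections of Segre
varieties with three factors, in the affine chart, for every bound `k` for the number of singular points.
Trilinear forms: the global conjecture for all polynomials is equivalent to the conjecture for trilinear
forms on the open set `x_0 y_0 z_0 ≠ 0`, and the local conjecture for all polynomials and all points is
equivalent to the local conjecture for trilinear forms at the points with `x_0 = y_0 = z_0 = 1`. -/
theorem result (χ : MK ℂ →+* ℂ) (hχ : χ ((Lu ℂ : (MK ℂ)ˣ) : MK ℂ) = 1) (o : Bool) (k : ℕ∞) :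
    Usual χ o k ∧ OpenToGlobal χ o ∧ (GlobC χ o k ↔ OpenC χ o k) ∧
      (GlobC χ o k → PointC χ o k) ∧ ToHypergraph χ o ∧ (GlobC χ o k ↔ HyperC χ o k) ∧
      (GlobC χ o 1 ↔ PointC χ o 1) ∧ (GlobC χ o 1 ↔ FinC χ o) ∧
      (GlobC χ o k ↔ SegreC χ o k) ∧ (GlobC χ o ⊤ ↔ TriOpenC χ o) ∧
      (PointC χ o ⊤ ↔ TriPointC χ o) := by
  refine ⟨?_, ?_, glob_open hχ, fun h => open_point ((glob_open hχ).1 h), ?_, ?_,
    (iso_iff hχ).1, (iso_iff hχ).2, glob_segre hχ, tri_open hχ, tri_point hχ⟩
  · intro A _ _ E ε he hE
    subst he
    have hu : ∀ (Z : PowerSeries (MK ℂ)) (R R' : RatFunc ℂ), IsTopZ (ε.comp E) Z R →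
        IsTopZ (ε.comp E) Z R' → R = R' := fun Z R R' h h' => topZ_unique E hE hχ h h'
    exact ⟨hu, fun n f W b R hR => cj_iff hu (isTopU_iff.1 hR), fun hDL hP => point_glob hu hDL hP⟩
  · intro n f g hf
    exact ⟨encard_yug f g, zt_yugG f g, fun c hc => bon_yug hf hc, fun h => cj_yug hχ hf h⟩
  · intro n f hf
    obtain ⟨κ, m, F, hm, hF, h1⟩ := exists_nf (χ := χ) (o := o) hχ n f hf
    exact ⟨κ, m, F, hm, nf_hf hF, h1.deg, h1.sing, h1.b, h1.cj⟩
  · constructor
    · intro h n f _ hf
      exact h n f hf
    · intro h n f hf hk
      obtain ⟨κ, m, F, hm, hF, h1⟩ := exists_nf (χ := χ) (o := o) hχ n f hf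
      exact h1.cj (h m F (nf_hf hF) h1.deg (h1.sing.trans hk))

end Pool.Agent.Results.MP_504089_ag.LocalGlobalHypergraphH32
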