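import Pool.Agent.V7H20.MF.Base
import Pool.Agent.V7H20.MF.Head

/-!
# The strong monodromy conjecture: weighted homogeneous polynomials in universal forms, powers

Let `I_b = (f_{b,j})_j`, `b ∈ B`, be ideals of `ℂ[x]`, let `w t b ≥ 0` be weights, `t ∈ τ`, and let

  `U_t = ∑_J y_{t,J} f^J(x)`

be the universal form over the ideal `∏ b, I_b ^ w t b`: the `f^J` are the products of `w t b` of the
generators of `I_b` for each `b`, and the `y_{t,J}` are new variables. Let `Φ` be any polynomial in
variables `u_t` which is homogeneous of degree `a b ≥ 1` for the weights `w t b`, for every `b`, and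
`F = Φ(U)`. The topological zeta function of `F` is

  `Z_F = Z_K Z_Φ`, `K = ∏ b, I_b ^ a b`

(on a log resolution `Y` of the `I_b` one has `U_t = (∏ b, e_b ^ w t b) u_t`, with `e_b` a local generator
of `I_b`, where the `u_t` are part of a system of coordinates on the fibres of `Y × ℂ^y → Y`; so
`F = (∏ b, e_b ^ a b) Φ(u)`). We prove that **the strong monodromy conjecture for the ideal `K` and for
`Φ` implies the one for `F`**. More generally we show that the strong conjecture is stable under a
list of operations (`FT`), of which the following are new:

* `form`: `F = Φ(U)` as above;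
* `ipow`, `pow`: powers `I ^ m` of ideals, and powers `F ^ m` of polynomials, `Z(m s)`; the functional
  equation of `I ^ m` gives one of `I`, with `b(s / m)` (`fe_root`);
* `gens`: other generators of the same ideal (`fe_gens`: the functional equations depend only on the
  ideal);
* `auto`: all polynomial automorphisms;
* `unstab`: from `f(x) + ∑ y_i z_i` to `f`.

The others (sums and products in disjoint variables, `∑ y_j f_j(x)`, `∑ y_j f_j(x) + g(z)`, dropping
variables) are in the start library (`Pool/Agent/Y230/TH`), for its list of ideals.

In the case of one ideal `I = (f_j)`: if `Φ` is weighted homogeneous of degree `a` for weights `w t`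
and `U_t` is the universal form over `I ^ w t` then `Z_F(s) = Z_I(a s) Z_Φ(s)`, and the strong
conjecture for `I` and for `Φ` implies the one for `F = Φ(U)`.

**Unconditional cases.** The classes contain the known cases `AllGlobal` (all ideals in two
variables, the ideals with a log resolution whose relevant divisors come from Rees divisors, for
example the monomial ideals, ideals with very general coefficients, and others) and `Hypers` (all plane
curves, the polynomials with affinely independent exponents, for example all Fermat and invertible
polynomials, and polynomials with very general coefficients). Examples, for any ideal `I` of these,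
or obtained from them by the operations, and `U_t = ∑ y_{t,j} f_j`: `U_1 ^ d + ⋯ + U_k ^ d`; all quadratic
forms in the `U_t`; all binary forms in `U_1`, `U_2`; products of such forms in disjoint sets of the
`U_t`; `(∑ y_J f^J) ^ 2 - (∑ z_J f^J) ^ 3` with the universal forms over `I ^ 3` and `I ^ 2`; for two ideals
`I`, `I'` in the same variables (with a known `I ^ a I' ^ a'`) and the universal forms `U_t`, `V_t` over them,
for instance `U_1 V_1 ^ 2 + U_2 V_2 ^ 2`. As `F = Φ(U)` is again homogeneous in the `y`, the
construction can be repeated. These `F` are in general degenerate, with singularities which are not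
isolated, and not of the form `∑ y_j f_j(x)` or a product of powers of such forms.

**Proof.** (1) The roots of `b_K`: let `v` be the exponent of the leading monomial of `Φ` for
suitable weights; the coefficients of `Φ ^ N` at exponents near `N v` are `c ^ N` times polynomials in
`N` (`coef_top`). Comparing the coefficients of `y` in the functional equation of `F` we get a
functional equation of `∏ t, (∏ b, I_b ^ w t b) ^ v t = K`, with `b(s) D(s) / (s + 1)`, where `D` has only
roots `q ≥ 0` in `ℚ` (`fe_of_form`). (2) The roots of `b_Φ`: near a general point of `U = u`, the `u_t`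
are part of coordinates; a functional equation of `F` is restricted to a section, with the operators
acting along the map `U` (`isB_of_section`); this gives `b_Φ ∣ b_F`, with the multiplicity of `-1`. (3)
`I ^ m` to `I`: the functional equation of `I ^ m` at the exponent `s` (a family of `N` choices) divided by
`s!` is summed over all `s` with the same total exponent `α`; the sums `∑ s ^ k / s!` are known
(`AJ_dsc`).
-/

set_option autoImplicit false

namespace Pool.Agent.Results.MP_504089_ag.WeightedFormsH20

open MvPolynomial Pool.Agent.W574.SM Pool.Agent.W574.RO Pool.Agent.H628R4.TP Pool.Agent.TH192.DT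
  Pool.Agent.Y229 Pool.Agent.Y230.TH Pool.Agent.Y228.AT Pool.Agent.V7H20.MF

/-- **The strong monodromy conjecture for weighted homogeneous polynomials in universal forms, and
for powers.** `Strong c A Z` is the strong conjecture for the ideal (`c = false`) or hypersurface
(`c = true`) `A` with the topological zeta function `Z`.

Let `At` and `HAt` be any (possibly empty) classes of ideals and hypersurfaces for which the strong
conjecture holds. Consider the classes `FT` of ideals and hypersurfaces, together with their
topological zeta functions, which are obtained by the operations in the list `FT` from `At`, `HAt` and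
the ideals in `AllGlobal` and the hypersurfaces in `Hypers`. Then the strong conjecture holds for all
their members `A`: every pole of `Z` is a root of every `b` which satisfies a functional equation
of `A`, and if `c = true`, `-1` is a double root of `b` if it is a pole of `(s + 1) Z`. In particular,
if `A` is given by one polynomial `F` and `b(s) F ^ s = P(s) F ^ (s + 1)` with a differential operator
`P(s)`, then `b(s₀) = 0` for every pole `s₀` of `Z`. -/
theorem result (At HAt : Fam → RatFunc ℂ → Prop) (hAt : ∀ A Z, At A Z → Strong false A Z)
    (hHAt : ∀ A Z, HAt A Z → Strong true A Z) (c : Bool) (A : Fam) (Z : RatFunc ℂ)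
    (h : FT (fun A Z => AllGlobal A Z ∨ At A Z) (fun A Z => Hypers A Z ∨ HAt A Z) c A Z) :
    Strong c A Z ∧ ∀ (σ : Type) (F : MvPolynomial σ ℂ), A = ⟨σ, Fin 1, fun _ => F⟩ →
      ∀ b : Polynomial ℂ, IsBFunction F b → ∀ s₀ : ℂ, Z.denom.eval s₀ = 0 → b.eval s₀ = 0 := by
  have h3 : Strong c A Z := strong_of_cl c A Z (ft_closure _ _
    (fun A Z h => cl_of_strong _ A Z (h.elim (ideals_strong A Z) (hAt A Z)))
    (fun A Z h => cl_of_strong _ A Z (h.elim (hypers_strong A Z) (hHAt A Z))) c A Z h)
  refine ⟨h3, ?_⟩
  rintro σ F rfl b hb s₀ hs
  exact h3.pole s₀ hs b (Pool.Agent.Y230.PS.single_of_isB F b hb)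

/-- The case of one ideal `I = (f_j)`: if the strong conjecture holds for `I` (`Z_I` has no poles at the
rational numbers `q ≥ 0`) and for `Φ`, which is weighted homogeneous of degree `a ≥ 1` for the weights
`w t`, then it holds for `F = Φ(U)`, `U_t` the universal form over `I ^ w t`, with
`Z_F(s) = Z_I(a s) Z_Φ(s)`. -/
theorem one_ideal {σ τ ι : Type} [Fintype τ] [DecidableEq τ] [Fintype ι] [DecidableEq ι] (c : Bool)
    (f : ι → MvPolynomial σ ℂ) (w : τ → ℕ) (a : ℕ) (ha : 1 ≤ a) (Φ : MvPolynomial τ ℂ)
    (hΦ : ∀ m : τ →₀ ℕ, coeff m Φ ≠ 0 → ∑ t, w t * m t = a) (Z W : RatFunc ℂ)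
    (hZ : ∀ q : ℚ, 0 ≤ q → Z.denom.eval (q : ℂ) ≠ 0) (hI : Strong false ⟨σ, ι, f⟩ Z)
    (hP : Strong c ⟨τ, Fin 1, fun _ => Φ⟩ W) :
    Strong c ⟨(Σ t, (Fin (w t) → ι)) ⊕ σ, Fin 1, fun _ => formOver w f Φ⟩ (dil a Z * W) := by
  refine (result (Strong false) (Strong true) (fun _ _ h => h) (fun _ _ h => h) c _ _
    (Pool.Agent.V7H20.MF.one_ideal _ _ c f w a ha Φ hΦ Z W hZ (FT.atom _ _ (Or.inr hI)) ?_)).1
  cases c with
  | false => exact FT.atom _ _ (Or.inr hP)
  | true => exact FT.hatom _ _ (Or.inr hP)

end Pool.Agent.Results.MP_504089_ag.WeightedFormsH20
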